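import Mathlib
import Pool.Agent.N28.DJ.BoundsMain

/-!
# Deligne's conjecture for the Artin twists by arbitrary groups, in spite of zeros

Let `M` be a motive over `ℚ` with coefficients in a number field `F`, of odd weight, critical at the
integer `c`, and let `K/ℚ` be a Galois extension with an ARBITRARY finite group `G`. Let `E` be a number
field which contains `F` and the roots of unity of order the exponent of `G`.

* `L τ χ`, for an embedding `τ` of `F` and an irreducible complex character `χ` of `G`, is the L-function
  of the twist of `M` (at `τ`) by `χ`;
* `P τ χ`, for an embedding `τ` of `E`, is the component at `τ` of the period at `c` of `M ⊗ χ'`, where `χ'`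
  is the Artin motive over `E` with `τ ∘ χ' = χ`.

L-functions and periods of direct sums are products. The L-functions of the twists are assumed to be
holomorphic at the critical point `c` (this is expected for all critical motives); they may vanish. The
subgroups `U` of `G` are the subfields `K^U` of `K`, and `ord U` is the order at `c` of the L-function of
`M` over `K^U`.

The theorem is Deligne's conjecture for the twists of `M` by all Artin representations of `G`, assuming
the conjecture for the twists by the monomial characters `Ind_U^G ψ` (the twists of the base change of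
`M` to the subfields of `K` by characters of finite order), when the number of certain zeros of
`L(M/K, s)` at `c` is small:

* `a p`: the zeros not coming from the largest Galois subextension of degree prime to `p`;
* `b p`: the zeros not coming from the largest Galois subextension whose group has abelian Sylow
  `p`-subgroups;
* `d`: the zeros not coming from the largest Galois subextension which is solvable of length `≤ k`.

Only the primes `p` with `[F(ζ_p) : F] ≤ a p` and the sections `X` of `G` without other prime divisors
matter. If such an `X` is a primitive linear group and `N / Z(X)` is an abelian chief factor of `X` of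
order `p ^ (2 n)`, we ask for `b p < [F(ζ_z) : F] p ^ n`, where `z` is the order of the Sylow `p`-subgroup of
`Z(X)`; if it is quasisimple, we ask that its nontrivial characters have degrees `> d`.

Example: `F = ℚ` and `L(M/K, s)` has at most three zeros. Then only the prime divisors 2 and 3 matter;
there are no quasisimple groups of such orders by Burnside's theorem, and the bound for the
chief factors fails only if `p ^ n = 2`, `|Z(X)|` is not divisible by 4, and `X / N` has an element of order 3
acting on a quaternion group in `N`. So for rational `M` and at most three zeros the conclusion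
holds for all groups `G` without sections of this kind, for instance if `[K : ℚ]` is not divisible by
24. For `SL_2(3)` and two zeros the conclusion does not follow formally. If `[K : ℚ]` is odd and `F = ℚ`, one can allow 17 zeros.

The zero sets of the L-values are Galois stable because of the conjecture for the monomial
characters. The proof shows that then the part of the order function (a character `θ` of `G`) in a
primitive section `X` of `G` is invariant under a nontrivial normal subgroup `Y` of `X`, the normal
closure of an element of order `p`, or of a quasisimple subgroup, or the commutators of a group of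
symplectic type; and the primitive characters of `X` are combinations of characters induced from
linear characters which are nontrivial on `Y`, whose L-functions do not vanish.
-/

set_option autoImplicit false

open Pool.Agent.H302R2 Pool.Agent.H541R3.ART Pool.Agent.R389 Filter Topology

namespace Pool.Agent.Results.MP_cd171c_nt.ArbitraryGroupsFewZeros

/-- The L-functions and the periods at `c` of the twists of a motive with coefficients in `F` by the
irreducible characters of the finite group `G`. The periods depend on an embedding of `E`. -/
structure TwistData (G : Type) [Group G] (F : Type) [Field F] (E : Type) [Field E] (c : ℂ) where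
  /-- the component at `τ` of the L-function of the twist by `χ` -/
  L : (F →+* ℂ) → (G → ℂ) → ℂ → ℂ
  /-- the component at `τ` of the period of the twist by `χ` -/
  P : (E →+* ℂ) → (G → ℂ) → ℂ
  /-- the L-functions are meromorphic at `c` and not identically zero near `c` -/
  mero : ∀ τ, ∀ χ ∈ Irr G, MeromorphicAt (L τ χ) c ∧ meromorphicOrderAt (L τ χ) c ≠ ⊤
  /-- the L-functions have no pole at `c` -/
  holo : ∀ τ, ∀ χ ∈ Irr G, 0 ≤ meromorphicOrderAt (L τ χ) c
  /-- the periods are not zero -/
  period : ∀ τ, ∀ χ ∈ Irr G, P τ χ ≠ 0

variable {G : Type} [Group G] {F : Type} [Field F] {E : Type} [Field E] {c : ℂ}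

/-- Deligne's conjecture for the twist by the representation over `E` with the character `f`. -/
def TwistData.Holds [Algebra F E] (D : TwistData G F E c) (f : G → E) : Prop :=
  Deligne (fun τ => D.L (τ.comp (algebraMap F E))) D.P c f

/-- the L-function, at the embedding `τ`, of the twist by the complex representation which contains
`m χ` times the irreducible representation with the character `χ` -/
noncomputable def TwistData.lfun (D : TwistData G F E c) (τ : F →+* ℂ) (m : (G → ℂ) → ℕ) (s : ℂ) :
    ℂ :=
  ∏ᶠ χ ∈ Irr G, D.L τ χ s ^ m χ

/-- The character of the permutation representation of `G` on the cosets of `U`. The twist by it is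
the base change of the motive to the fixed field of `U`. -/
noncomputable def perm (U : Subgroup G) : G → ℂ := ind U (fun _ => (1 : ℂ))

/-- `k` is the order at `c` of the L-function, at the embedding `τ`, of the twist by a complex
representation with the character `f`. -/
def TwistData.HasOrder (D : TwistData G F E c) (τ : F →+* ℂ) (f : G → ℂ) (k : ℤ) : Prop :=
  ∃ m : (G → ℂ) → ℕ, IsDecomp f m ∧ meromorphicOrderAt (D.lfun τ m) c = k

/-- the subgroup generated by the elements of `p`-power order -/
def pGenerated (p : ℕ) (G : Type) [Group G] : Subgroup G :=
  Subgroup.closure {x | ∃ k : ℕ, x ^ p ^ k = 1}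

/-- the subgroup generated by the commutator subgroups of the `p`-subgroups -/
def pDerived (p : ℕ) (G : Type) [Group G] : Subgroup G :=
  ⨆ Q : {Q : Subgroup G // IsPGroup p Q}, ⁅(Q : Subgroup G), (Q : Subgroup G)⁆

/-- the degree of the field of the roots of unity of order `q` over `F` -/
noncomputable def rootDegree (F : Type) [Field F] (q : ℕ) : ℕ :=
  Module.finrank F (CyclotomicField q F)

/-- `X` is isomorphic to a quotient of a subgroup of `G`. -/
def IsSection (G X : Type) [Group G] [Group X] : Prop :=
  ∃ (H : Subgroup G) (q : H →* X), Function.Surjective q

/-- `X` has a faithful irreducible complex representation of degree at least two which is not induced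
from a proper subgroup. -/
def Primitive (X : Type) [Group X] : Prop :=
  ∃ ψ ∈ Irr X, ψ 1 ≠ 1 ∧ (∀ x, ψ x = ψ 1 → x = 1) ∧
    ∀ (U : Subgroup X) (φ : U → ℂ), U ≠ ⊤ → φ ∈ Irr U → ψ ≠ ind U φ

/-- `N` is a normal subgroup of `X` which contains the centre `Z` of `X`, and `N / Z` is an abelian chief
factor of `X` of order `p ^ (2 n) > 1`. -/
structure ChiefFactor {X : Type} [Group X] (N : Subgroup X) (p n : ℕ) : Prop where
  prime : p.Prime
  pos : 0 < n
  normal : N.Normal
  le : Subgroup.center X ≤ N
  card : Nat.card N = p ^ (2 * n) * Nat.card (Subgroup.center X)
  comm : ∀ x ∈ N, ∀ y ∈ N, x * y * x⁻¹ * y⁻¹ ∈ Subgroup.center X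
  chief : ∀ M : Subgroup X, M.Normal → Subgroup.center X ≤ M → M ≤ N →
    M = Subgroup.center X ∨ M = N

/-- `T` is a nontrivial perfect group all of whose proper normal subgroups are central. -/
def Quasisimple (T : Type) [Group T] : Prop :=
  (∃ t : T, t ≠ 1) ∧ commutator T = ⊤ ∧ ∀ N : Subgroup T, N.Normal → N = ⊤ ∨ N ≤ Subgroup.center T

theorem derP_eq (p : ℕ) (G : Type) [Group G] :
    Pool.Agent.N28.DL.derP p (⊤ : Subgroup G) = pDerived p G := by
  apply le_antisymm
  · refine iSup_le fun Q => ?_
    exact le_iSup (fun Q : {Q : Subgroup G // IsPGroup p Q} =>
      ⁅(Q : Subgroup G), (Q : Subgroup G)⁆) ⟨Q, Q.2.2⟩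
  · exact iSup_le fun Q => Pool.Agent.N28.DL.derP_le le_top Q.2

/-- **Deligne's conjecture for Artin twists, arbitrary groups, few zeros.** Suppose that the conjecture
holds at `c` for the twists by all monomial characters `Ind_U^G ψ` of the finite group `G`. Let `ord U` be
the order at `c` of the L-function of the base change to the fixed field of `U`, for one embedding. Let
`ord ⊥ ≤ ord (pGenerated p G) + a p` and `ord ⊥ ≤ ord (pDerived p G) + b p` for all primes `p`, and
`ord ⊥ ≤ ord S + d`, where `S` is a term of the derived series of `G`. Suppose, for all sections `X` of
`G` such that `[F(ζ_p) : F] ≤ a p` for all prime divisors `p` of the order of `X`: if `X` is primitive and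
`N / Z(X)` is an abelian chief factor of `X` of order `p ^ (2 n)` then `b p < [F(ζ_z) : F] p ^ n`, where `z` is the
largest power of `p` which divides the order of `Z(X)`; if `X` is quasisimple, then its nontrivial
irreducible characters have degrees larger than `d`. Then the conjecture holds at `c` for the twists
by all representations of `G` over `E`. -/
theorem result (G : Type) [Group G] [Finite G] (F : Type) [Field F] (E : Type) [Field E]
    [NumberField E] [Algebra F E] (ζ : E) (hζ : IsPrimitiveRoot ζ (Monoid.exponent G)) (c : ℂ)
    (D : TwistData G F E c)
    (hmon : ∀ (U : Subgroup G) (ψ : U →* Eˣ), D.Holds (ind U (fun u => ((ψ u : Eˣ) : E))))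
    (τ₀ : E →+* ℂ) (ord : Subgroup G → ℤ)
    (hord : ∀ U : Subgroup G, D.HasOrder (τ₀.comp (algebraMap F E)) (perm U) (ord U))
    (a b : ℕ → ℕ) (d k : ℕ)
    (ha : ∀ p : ℕ, p.Prime → ord ⊥ ≤ ord (pGenerated p G) + a p)
    (hb : ∀ p : ℕ, p.Prime → ord ⊥ ≤ ord (pDerived p G) + b p)
    (hd : ord ⊥ ≤ ord (derivedSeries G k) + d)
    (hchief : ∀ (X : Type) [Group X] [Finite X], IsSection G X → Primitive X →
      (∀ p : ℕ, p.Prime → p ∣ Nat.card X → rootDegree F p ≤ a p) →
      ∀ (N : Subgroup X) (p n : ℕ), ChiefFactor N p n →
        b p < rootDegree F (p ^ (Nat.card (Subgroup.center X)).factorization p) * p ^ n)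
    (hquasi : ∀ (T : Type) [Group T] [Finite T], IsSection G T →
      (∀ p : ℕ, p.Prime → p ∣ Nat.card T → rootDegree F p ≤ a p) → Quasisimple T →
      ∀ χ ∈ Irr T, (∃ t, χ t ≠ 1) → ∀ m : ℕ, χ 1 = m → d < m)
    (V : Type) [AddCommGroup V] [Module E V] [FiniteDimensional E V] (ρ : Representation E G V) :
    D.Holds ρ.character := by
  refine Pool.Agent.N28.DL.main_bounds hζ D.mero D.holo D.period hmon τ₀ ord hord
    (sE := a) (sF := b) (sC := d) (k := k) ha ?_ hd ?_ ?_ ρ
  · intro p hp
    rw [derP_eq]
    exact hb p hp
  · intro X _ _ hs hX hp N p n hN
    exact hchief X hs hX hp N p n ⟨hN.prime, hN.pos, hN.normal, hN.le, hN.card, hN.comm, hN.chief⟩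
  · intro T _ _ hs hp hT
    exact hquasi T hs hp hT

end Pool.Agent.Results.MP_cd171c_nt.ArbitraryGroupsFewZeros
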