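import Mathlib
import Pool.Agent.R389.Simple

/-!
# Deligne's conjecture when the zeros are zeros of simple order of abelian twists

Let `M` be a motive over `ℚ` with coefficients in the number field `E`, pure of odd weight, let `c` be
a critical integer of `M`, and let `K/ℚ` be a Galois extension with the group `G`; the field `E`
contains the roots of unity of order the exponent of `G`, so that every irreducible character `χ` of
`G` is the character of a representation over `E` (Brauer). For an embedding `τ` of `E`:

* `L τ χ` is the component at `τ` of the L-function of the motive `M ⊗ χ'`, where `χ'` is the Artin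
  motive over `E` with `τ ∘ χ' = χ`; it is meromorphic at `c` and not identically zero.
* `P τ χ` is the component at `τ` of the Deligne period of `M ⊗ χ'` at `c`.

L-functions and periods of direct sums are products. So `Deligne L P c f` (defined in
`Pool/Agent/R389/Defs.lean`) is Deligne's conjecture for the twist `M ⊗ ρ`, where `ρ` is the
representation with the character `f : G → E`.

Let `F` be any Galois subfield of `K`, `F = K^N`, and `F'` the maximal abelian extension of `F` in `K`,
with the group `N / [N, N]` over `F`. We assume, for one embedding `τ₀` of `E`, that the zeros of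
`L(M/K, s)` at `c` come from `F'`, that is, they are zeros of the L-functions of the twists of `M/F` by
the characters `μ` of finite order of `F` with `μ = 1` over `K`, and that these zeros are simple for
`μ ≠ 1`. There is no bound for the number of these zeros, and no condition on the group `G`. Then
Deligne's conjecture for the twists by all representations of `G` follows from the conjecture for
the twists by the monomial characters of `G` (Hecke characters of finite order over the subfields of
`K`) and the conjecture for the twists by the representations of `Gal(F/ℚ)`; the latter is not needed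
if the zero for `μ = 1` is simple, too.

Brauer's theorem gives this only if `L(M/K, c) ≠ 0`. The proof combines the results of the library
`Pool.Agent.R389` (relative form of Brauer's theorem; the part of the function of the orders over a
character `μ` with a simple zero is a linear character of the stabilizer of `μ`).
-/

set_option autoImplicit false
set_option linter.unusedSectionVars false

open Pool.Agent.H302R2 Pool.Agent.H302R3 Pool.Agent.H541R3.ART Pool.Agent.W446.AS
open Pool.Agent.R389 Filter Topology

namespace Pool.Agent.Results.MP_cd171c_nt.SimpleAbelianZeros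

/-- The L-functions and the periods at `c` of the twists of a motive by the irreducible characters of
the finite group `G`, for the embeddings `τ` of the coefficient field `E`. -/
structure TwistData (G : Type) [Group G] (E : Type) [Field E] (c : ℂ) where
  /-- the L-function of the twist by `χ` -/
  L : (E →+* ℂ) → (G → ℂ) → ℂ → ℂ
  /-- the period of the twist by `χ` -/
  P : (E →+* ℂ) → (G → ℂ) → ℂ
  /-- the L-functions are meromorphic at `c` and not identically zero near `c` -/
  mero : ∀ τ, ∀ χ ∈ Irr G, MeromorphicAt (L τ χ) c ∧ meromorphicOrderAt (L τ χ) c ≠ ⊤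
  /-- the periods are not zero -/
  period : ∀ τ, ∀ χ ∈ Irr G, P τ χ ≠ 0

variable {G : Type} [Group G] {E : Type} [Field E] {c : ℂ}

/-- Deligne's conjecture for the twist by the representation with the character `f : G → E`. -/
def TwistData.Holds (D : TwistData G E c) (f : G → E) : Prop := Deligne D.L D.P c f

/-- The order at `c`, at the embedding `τ`, of the L-function of the twist by the representation
which contains all the irreducible characters `χ` in the set `S` with the multiplicity `d χ`. -/
noncomputable def TwistData.order (D : TwistData G E c) (τ : E →+* ℂ) (S : Set (G → ℂ))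
    (d : (G → ℂ) → ℕ) : WithTop ℤ :=
  meromorphicOrderAt (fun s => ∏ᶠ χ ∈ S, D.L τ χ s ^ d χ) c

/-- The irreducible characters of `G` which are trivial on the subgroup `A`; for a normal subgroup
`A` these are the irreducible characters of `G / A`. -/
def TrivialOn (A : Subgroup G) : Set (G → ℂ) := {χ ∈ Irr G | ∀ k ∈ A, χ k = χ 1}

/-- For the embedding `τ` the L-function of the base change of `M` to the field of the fixed points of
`N`, twisted by the character `μ` of `N`, has at `c` at most a simple zero: this is the L-function of
the twist of `M` by the induced character of `G`. -/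
def TwistData.AtMostSimple (D : TwistData G E c) (τ : E →+* ℂ) (N : Subgroup G) (μ : N →* ℂˣ) :
    Prop :=
  ∀ m : (G → ℂ) → ℕ, IsDecomp (ind N (fun n => ((μ n : ℂˣ) : ℂ))) m → D.order τ (Irr G) m ≤ 1

section proof

variable [Finite G] {L : (E →+* ℂ) → (G → ℂ) → ℂ → ℂ} {P : (E →+* ℂ) → (G → ℂ) → ℂ}

/-- the multiplicity of a simple zero -/
lemma mult_le (hL : ∀ τ, ∀ χ ∈ Irr G, MeromorphicAt (L τ χ) c ∧ meromorphicOrderAt (L τ χ) c ≠ ⊤)
    (τ₀ : E →+* ℂ) (N : Subgroup G) (μ : N →* ℂˣ)
    (h : ∀ m : (G → ℂ) → ℕ, IsDecomp (ind N (fun n => ((μ n : ℂˣ) : ℂ))) m →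
      meromorphicOrderAt (fun s => ∏ᶠ χ ∈ Irr G, L τ₀ χ s ^ m χ) c ≤ 1) (d : ℕ)
    (hd : pr (theta (ords (L τ₀) c) : G → ℂ) (ind N (lc μ)) = d) : d ≤ 1 := by
  obtain ⟨m, hm⟩ := ind_isDecomp N μ
  obtain ⟨z, hz1, hz2⟩ := order_eq_pr hL τ₀ hm
  have h1 := h m hm
  rw [hz1] at h1
  have h2 : z ≤ 1 := by exact_mod_cast h1
  have h3 : (z : ℂ) = ((d : ℤ) : ℂ) := by
    rw [← hz2]
    refine Eq.trans hd ?_
    simp
  have h4 : z = (d : ℤ) := by exact_mod_cast h3
  omega

/-- representations over `F` when the zero of `L(M/F, s)` is at most simple -/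
theorem old_simple {ζ : E} (hζ : IsPrimitiveRoot ζ (Monoid.exponent G))
    (hL : ∀ τ, ∀ χ ∈ Irr G, MeromorphicAt (L τ χ) c ∧ meromorphicOrderAt (L τ χ) c ≠ ⊤)
    (hP : ∀ τ, ∀ χ ∈ Irr G, P τ χ ≠ 0)
    (hmon : ∀ (U : Subgroup G) (ψ : U →* Eˣ),
      Deligne L P c (ind U (fun u => ((ψ u : Eˣ) : E)))) (τ₀ : E →+* ℂ)
    (N : Subgroup G) [hN : N.Normal]
    (hs : ∀ d : ℕ, pr (theta (ords (L τ₀) c) : G → ℂ) (ind N (lc (1 : N →* ℂˣ))) = d → d ≤ 1)
    {W : Type} [AddCommGroup W] [Module E W] [FiniteDimensional E W] (σ : Representation E G W)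
    (hσ : ∀ k ∈ N, ∀ w, σ k w = w) : Deligne L P c σ.character := by
  classical
  have hθ := ha_ords hζ hL hmon τ₀
  set f : G → ℂ := fun g => τ₀ (σ.character g) with hfd
  have hf : f ∈ AddSubmonoid.closure (Irr G) := base_change τ₀ σ
  have hfN : ∀ g, ∀ k ∈ N, f (g * k) = f g := by
    intro g k hk
    have h1 : σ k = 1 := LinearMap.ext fun w => hσ k hk w
    change τ₀ (LinearMap.trace E W (σ (g * k))) = τ₀ (LinearMap.trace E W (σ g))
    rw [map_mul, h1, mul_one]
  have h1 := orbit_mem hθ (theta_virt _) (1 : N →* ℂˣ) hs hf
  have h2 : (fun g => ∑ ν ∈ orb (1 : N →* ℂˣ), part N ν f g) = f := by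
    have h3 : orb (1 : N →* ℂˣ) = {1} := by
      ext ν
      rw [mem_orb, Finset.mem_singleton]
      constructor
      · rintro ⟨x, rfl⟩
        ext n
        rw [cmu_apply, MonoidHom.one_apply, MonoidHom.one_apply]
      · rintro rfl
        exact ⟨1, cmu_one 1⟩
    funext g
    rw [h3, Finset.sum_singleton, part_one, inv_of_const N hfN]
  rw [h2] at h1
  obtain ⟨a, ha, s, hsG, has⟩ := AddSubmonoid.mem_sup.mp h1
  obtain ⟨fa, ea, ha1, ha2⟩ := monA_del hζ hL hP hmon τ₀ ha
  obtain ⟨fs, es, hs1, -, hs2⟩ := goodA_unit hζ hL hP hmon τ₀ hsG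
  have h4 : σ.character = fa + fs := by
    funext g
    apply τ₀.injective
    rw [Pi.add_apply, map_add, ha1, hs1]
    exact (congrFun has g).symm
  rw [h4]
  exact (ha2.add hL hP hs2).deligne

end proof

/-- **Deligne's conjecture, simple zeros of abelian twists.** Suppose that the conjecture holds at `c`
for the twists by all monomial characters of `G`. Let `d χ = χ(1)`, so that `D.order τ (Irr G) d` is
the order at `c` of the L-function of the base change of `M` to `K`. Let `N` be a normal subgroup of
`G`, with the field `F` of fixed points, such that for one embedding `τ₀` this order is not larger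
than the order of the L-function of the base change to the field of fixed points of `[N, N]`, and
such that for `τ₀` the L-functions of the twists of `M/F` by the characters `μ ≠ 1` of `N` have at most
simple zeros. Suppose that the conjecture holds for the twists of `M` by the representations of
`G / N = Gal(F/ℚ)`, or that `L(M/F, s)`, too, has at most a simple zero for `τ₀`. Then the conjecture
holds for the twists by all representations of `G` over `E`. -/
theorem result (G : Type) [Group G] [Finite G] (E : Type) [Field E] [NumberField E] (ζ : E)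
    (hζ : IsPrimitiveRoot ζ (Monoid.exponent G)) (c : ℂ) (D : TwistData G E c)
    (hmon : ∀ (U : Subgroup G) (ψ : U →* Eˣ), D.Holds (ind U (fun u => ((ψ u : Eˣ) : E))))
    (τ₀ : E →+* ℂ) (d : (G → ℂ) → ℕ) (hd : ∀ χ ∈ Irr G, χ 1 = d χ)
    (N : Subgroup G) [N.Normal]
    (hz : D.order τ₀ (Irr G) d ≤ D.order τ₀ (TrivialOn ⁅N, N⁆) d)
    (hs : ∀ μ : N →* ℂˣ, μ ≠ 1 → D.AtMostSimple τ₀ N μ)
    (hF : D.AtMostSimple τ₀ N 1 ∨
      ∀ (W : Type) [AddCommGroup W] [Module E W] [FiniteDimensional E W]
        (σ : Representation E G W), (∀ k ∈ N, ∀ w, σ k w = w) → D.Holds σ.character)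
    (V : Type) [AddCommGroup V] [Module E V] [FiniteDimensional E V] (ρ : Representation E G V) :
    D.Holds ρ.character := by
  have hmon' : ∀ (U : Subgroup G) (ψ : U →* Eˣ), Hyper U →
      Deligne D.L D.P c (ind U (fun u => ((ψ u : Eˣ) : E))) := fun U ψ _ => hmon U ψ
  have hset : {χ ∈ Irr G | ∀ k ∈ ⁅N, N⁆, χ k = χ 1 * (((1 : G →* ℂˣ) k : ℂˣ) : ℂ)}
      = TrivialOn ⁅N, N⁆ := by
    ext χ
    simp [TrivialOn]
  have hK := zeros_old hζ D.mero hmon' τ₀ hd ⁅N, N⁆ 1 (by rw [hset]; exact hz)
  refine main_simple' hζ D.mero D.period hmon τ₀ N (fun k hk => ?_)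
    (fun μ hμ e he => mult_le D.mero τ₀ N μ (hs μ hμ) e he) ?_ ρ
  · rw [hK k hk]
    simp
  · intro W _ _ _ σ hσ
    rcases hF with h | h
    · exact old_simple hζ D.mero D.period hmon τ₀ N
        (fun e he => mult_le D.mero τ₀ N 1 h e he) σ hσ
    · exact h W σ hσ

end Pool.Agent.Results.MP_cd171c_nt.SimpleAbelianZeros
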