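import Mathlib
import Pool.Agent.R389.Main

/-!
# Deligne's conjecture for all Artin twists when the zeros are old

Let `M` be a motive over `ℚ` with coefficients in the number field `E`, pure of odd weight, let `c` be
a critical integer of `M`, and let `K/ℚ` be a Galois extension with the group `G`; the field `E`
contains the roots of unity of order the exponent of `G`, so that every irreducible character `χ` of
`G` is the character of a representation over `E` (Brauer). For an embedding `τ` of `E`:

* `L τ χ` is the component at `τ` of the L-function of the motive `M ⊗ χ'`, where `χ'` is the Artin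
  motive over `E` with `τ ∘ χ' = χ`; it is meromorphic at `c` and not identically zero.
* `P τ χ` is the component at `τ` of the Deligne period of `M ⊗ χ'` at `c`.

L-functions and periods of direct sums are products. So `Deligne L P c f` (defined in
`Pool/Agent/R389/Defs.lean`) is Deligne's conjecture for the twist `M ⊗ ρ`, where `ρ` is the
representation with the character `f : G → E`: there is `e ∈ E` such that for all embeddings `τ` the
L-function of `M ⊗ ρ` has at `c` the value `τ(e)` times the period; in particular it has no pole.

If `L(M/K, c) ≠ 0` then the conjecture for all `M ⊗ ρ` follows from the one for the twists by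
monomial characters `Ind_U^G ψ` (twists by Hecke characters of finite order over the subfields of
`K`) by Brauer's theorem. Here zeros are allowed: at most a simple zero of `L(M/K, s)`, or zeros of
any order which come from the subfield `F` of the fixed points of `K` under a normal subgroup `N`
whose index is a power of a prime number, possibly after a twist by a character `λ` of `G`.

The proof is that of the starting library file `Pool/Agent/R389/Main.lean`.
-/

set_option autoImplicit false

open Pool.Agent.H541R3.ART Pool.Agent.R389

namespace Pool.Agent.Results.MP_cd171c_nt.TwistsOldZeros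

/-- The L-functions and the periods at `c` of the twists of a motive by the irreducible characters of
the finite group `G`, for the embeddings `τ` of the coefficient field `E`. -/
structure TwistData (G : Type) [Group G] (E : Type) [Field E] (c : ℂ) where
  /-- the L-function of the twist by `χ` -/
  L : (E →+* ℂ) → (G → ℂ) → ℂ → ℂ
  /-- the period of the twist by `χ` -/
  P : (E →+* ℂ) → (G → ℂ) → ℂ
  /-- the L-functions are meromorphic at `c` and not identically zero near `c` -/
  mero : ∀ τ, ∀ χ ∈ Irr G, MeromorphicAt (L τ χ) c ∧ meromorphicOrderAt (L τ χ) c ≠ ⊤
  /-- the periods are not zero -/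
  period : ∀ τ, ∀ χ ∈ Irr G, P τ χ ≠ 0

variable {G : Type} [Group G] {E : Type} [Field E] {c : ℂ}

/-- Deligne's conjecture for the twist by the representation with the character `f : G → E`. -/
def TwistData.Holds (D : TwistData G E c) (f : G → E) : Prop := Deligne D.L D.P c f

/-- The order at `c`, at the embedding `τ`, of the L-function of the twist by the representation
which contains all the irreducible characters `χ` in the set `S` with the multiplicity `d χ`. -/
noncomputable def TwistData.order (D : TwistData G E c) (τ : E →+* ℂ) (S : Set (G → ℂ))
    (d : (G → ℂ) → ℕ) : WithTop ℤ :=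
  meromorphicOrderAt (fun s => ∏ᶠ χ ∈ S, D.L τ χ s ^ d χ) c

/-- The irreducible characters of `G` on which the subgroup `N` acts by the scalar `λ`. They are the
twists by `λ` of the irreducible characters of `G / N`. -/
def OverQuotient (N : Subgroup G) (lam : G →* ℂˣ) : Set (G → ℂ) :=
  {χ ∈ Irr G | ∀ k ∈ N, χ k = χ 1 * ((lam k : ℂˣ) : ℂ)}

/-- **Deligne's conjecture for Artin twists, old zeros.** Suppose that the conjecture holds at `c` for
the twists by the monomial characters `Ind_U^G ψ` of `G`, `U` hyperelementary. Let `d χ = χ(1)`, so
that `D.order τ (Irr G) d` is the order at `c` of the L-function of the base change of `M` to `K`. Suppose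
that, for one embedding `τ₀`, this order is at most one, or not larger than the order of the
L-function of the base change to `F` of the twist of `M` by `λ`, for a character `λ` of `G` and a normal
subgroup `N` of prime power index with the field `F` of fixed points. Then the conjecture holds at
`c` for the twists by all representations of `G` over `E`. -/
theorem result (G : Type) [Group G] [Finite G] (E : Type) [Field E] [NumberField E] (ζ : E)
    (hζ : IsPrimitiveRoot ζ (Monoid.exponent G)) (c : ℂ) (D : TwistData G E c)
    (hmon : ∀ (U : Subgroup G) (ψ : U →* Eˣ), Hyper U →
      D.Holds (ind U (fun u => ((ψ u : Eˣ) : E))))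
    (τ₀ : E →+* ℂ) (d : (G → ℂ) → ℕ) (hd : ∀ χ ∈ Irr G, χ 1 = d χ)
    (p : ℕ) (hp : p.Prime) (N : Subgroup G) [N.Normal] (hN : IsPGroup p (G ⧸ N)) (lam : G →* ℂˣ)
    (hz : D.order τ₀ (Irr G) d ≤ 1 ∨ D.order τ₀ (Irr G) d ≤ D.order τ₀ (OverQuotient N lam) d)
    (V : Type) [AddCommGroup V] [Module E V] [FiniteDimensional E V] (ρ : Representation E G V) :
    D.Holds ρ.character := by
  refine main hζ D.mero D.period hmon τ₀ hd hp N hN lam ?_ ρ
  rcases hz with h | h
  · exact h.trans (le_max_left _ _)
  · exact h.trans (le_max_right _ _)

end Pool.Agent.Results.MP_cd171c_nt.TwistsOldZeros
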