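import Mathlib
import Pool.Agent.N28.DL.SylMain

/-!
# Deligne's conjecture for all Artin twists when the zeros come from Sylow subgroups

Let `M` be a motive over `ℚ` with coefficients in the number field `E`, pure of odd weight, let `c` be
a critical integer of `M`, and let `K/ℚ` be a Galois extension with the group `G`; the field `E`
contains the roots of unity of order the exponent of `G`, so that every irreducible character `χ` of
`G` is the character of a representation over `E` (Brauer). For an embedding `τ` of `E`:

* `L τ χ` is the component at `τ` of the L-function of the motive `M ⊗ χ'`, where `χ'` is the Artin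
  motive over `E` with `τ ∘ χ' = χ`; it is meromorphic at `c` and not identically zero.
* `P τ χ` is the component at `τ` of the Deligne period of `M ⊗ χ'` at `c`.

L-functions and periods of direct sums are products. So `Deligne L P c f` (defined in
`Pool/Agent/R389/Defs.lean`) is Deligne's conjecture for the twist `M ⊗ ρ`, where `ρ` is the
representation with the character `f : G → E`: there is `e ∈ E` such that for all embeddings `τ` the
L-function of `M ⊗ ρ` has at `c` the value `τ(e)` times the period; in particular it has no pole.

If `L(M/K, c) ≠ 0` then the conjecture for all `M ⊗ ρ` follows from the one for the twists by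
monomial characters `Ind_U^G ψ` (twists by Hecke characters of finite order over the subfields of
`K`) by Brauer's theorem. Here `G` is an arbitrary finite group, and `L(M/K, s)` may have a zero of any
order `r` at `c`. We assume that for each prime `p ≤ r` a single Hecke character of a subfield `K^S`,
where `S` is a Sylow `p`-subgroup, accounts for all the zeros: the L-function of the twist of `M` by
it also has the order `r` at `c` (for example, that `L(M/K^S, s)` has the same order as `L(M/K, s)`).
If `r ≤ 4` it suffices that this holds for `p = 2`.

The proof: let `θ` be the class function in which an irreducible character has the order at `c` of its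
L-function as multiplicity. The assumption says that `θ` is a multiple of a linear character on the
Sylow subgroups. By an extension of a theorem of Stark (the starting library files
`Pool/Agent/TH820/KerE.lean` and `KerH.lean`) a twist of `θ` by a linear character is invariant under
the commutator subgroup of `G` (under a normal subgroup with solvable quotient of odd order if
`r ≤ 4`). A relative form of Brauer's theorem writes each irreducible character which is not trivial
on this subgroup as a combination of monomial characters orthogonal to `θ`, whose L-values can be
inverted. The irreducible characters of the quotient are monomial, or combinations of monomial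
characters orthogonal to `θ` (`Pool/Agent/N28/DL/Syl.lean`).
-/

set_option autoImplicit false

open Pool.Agent.H302R2 Pool.Agent.H541R3.ART Pool.Agent.R389

namespace Pool.Agent.Results.MP_cd171c_nt.TwistsSylow

/-- The L-functions and the periods at `c` of the twists of a motive by the irreducible characters of
the finite group `G`, for the embeddings `τ` of the coefficient field `E`. -/
structure TwistData (G : Type) [Group G] (E : Type) [Field E] (c : ℂ) where
  /-- the L-function of the twist by `χ` -/
  L : (E →+* ℂ) → (G → ℂ) → ℂ → ℂ
  /-- the period of the twist by `χ` -/
  P : (E →+* ℂ) → (G → ℂ) → ℂ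
  /-- the L-functions are meromorphic at `c` and not identically zero near `c` -/
  mero : ∀ τ, ∀ χ ∈ Irr G, MeromorphicAt (L τ χ) c ∧ meromorphicOrderAt (L τ χ) c ≠ ⊤
  /-- the periods are not zero -/
  period : ∀ τ, ∀ χ ∈ Irr G, P τ χ ≠ 0

variable {G : Type} [Group G] {E : Type} [Field E] {c : ℂ}

/-- Deligne's conjecture for the twist by the representation with the character `f : G → E`. -/
def TwistData.Holds (D : TwistData G E c) (f : G → E) : Prop := Deligne D.L D.P c f

/-- `k` is the order at `c` of the L-function of the twist by a complex representation with the
character `f`, at the embedding `τ`. -/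
def TwistData.HasOrder (D : TwistData G E c) (τ : E →+* ℂ) (f : G → ℂ) (k : ℤ) : Prop :=
  ∃ m : (G → ℂ) → ℕ, IsDecomp f m ∧
    meromorphicOrderAt (fun s => ∏ᶠ χ ∈ Irr G, D.L τ χ s ^ m χ) c = k

/-- The character of the regular representation of `G`. The twist by it is the base change of the
motive to the field `K`. -/
noncomputable def regular : G → ℂ := ind (⊥ : Subgroup G) (fun _ => (1 : ℂ))

/-- The character of `G` induced from the linear character `l` of `U`. The twist by it is the twist
by a Hecke character of finite order of the base change of the motive to the fixed field of `U`. -/
noncomputable def hecke (U : Subgroup G) (l : U →* ℂˣ) : G → ℂ := ind U (fun u => ((l u : ℂˣ) : ℂ))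

open Pool.Agent.W446.AS in
/-- The regular representation contains every irreducible representation with its degree as the
multiplicity. -/
theorem deg_of_regular {G : Type} [Group G] [Finite G] {m : (G → ℂ) → ℕ}
    (hm : IsDecomp (regular : G → ℂ) m) : ∀ χ ∈ Irr G, χ 1 = m χ := by
  classical
  intro χ hχ
  have h1 := hm.pr hχ
  rw [← h1]
  have h2 : (regular : G → ℂ) = ind (⊥ : Subgroup G) (fun _ => (1 : ℂ)) := rfl
  rw [h2, frob _ _ (Irr.conj hχ), pr]
  have h3 : Nat.card (⊥ : Subgroup G) = 1 := Subgroup.card_bot
  rw [h3, finsum_unique]
  have h4 : (((default : (⊥ : Subgroup G))⁻¹ : (⊥ : Subgroup G)) : G) = 1 :=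
    Subgroup.mem_bot.1 ((default : (⊥ : Subgroup G))⁻¹).2
  simp only [h4]
  norm_num

/-- **Deligne's conjecture for Artin twists, zeros from Sylow subgroups.** Suppose that the conjecture
holds at `c` for the twists by all monomial characters `Ind_U^G ψ` of `G`. At one embedding `τ₀` of the
coefficient field let `r` be the order at `c` of the L-function of the base change of `M` to `K`.
Suppose that for every prime `p ≤ r` — if `r ≤ 4`, only for `p = 2 ≤ r` — there is a linear character
`l` of a Sylow `p`-subgroup `S` of `G` such that the L-function of the twist by `Ind_S^G l` has the
order `r` at `c`, too. Then the conjecture holds at `c` for the twists by all representations of `G`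
over `E`. -/
theorem result (G : Type) [Group G] [Finite G] (E : Type) [Field E] [NumberField E] (ζ : E)
    (hζ : IsPrimitiveRoot ζ (Monoid.exponent G)) (c : ℂ) (D : TwistData G E c)
    (hmon : ∀ (U : Subgroup G) (ψ : U →* Eˣ), D.Holds (ind U (fun u => ((ψ u : Eˣ) : E))))
    (τ₀ : E →+* ℂ) (r : ℕ) (hr : D.HasOrder τ₀ regular r)
    (hsyl : ∀ p : ℕ, p.Prime → p ≤ r → (p = 2 ∨ 5 ≤ r) →
      ∃ (S : Sylow p G) (l : (S : Subgroup G) →* ℂˣ), D.HasOrder τ₀ (hecke S l) r)
    (V : Type) [AddCommGroup V] [Module E V] [FiniteDimensional E V] (ρ : Representation E G V) :
    D.Holds ρ.character := by
  obtain ⟨m, hm, hmr⟩ := hr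
  exact Pool.Agent.N28.DL.main_syl hζ D.mero D.period hmon τ₀ (deg_of_regular hm) hmr hsyl ρ

end Pool.Agent.Results.MP_cd171c_nt.TwistsSylow
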